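import Pool.Agent.Helper91.KZ.StL

namespace Pool.Agent.Helper7.KZ

open Pool.Agent.Helper91.KZ Polynomial TensorProduct

universe u

theorem st_KIL : ST_KIL.{u} := by
  intro E N _ _ _ _ _ a ha
  classical
  have hf : Fintype (N ≃ₐ[E] N) := Fintype.ofFinite _
  have hc : Fintype.card (N ≃ₐ[E] N) = Module.finrank E N := by
    rw [← Nat.card_eq_fintype_card]
    exact IsGalois.card_aut_eq_finrank E N
  refine ⟨fun g => ∏ h, a g h, fun g => Finset.prod_ne_zero_iff.mpr fun h _ => ha.a0 g h, ?_⟩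
  intro g h
  have h1 : ∏ k, (g (a h k) * a g (h * k)) = ∏ k, (a g h * a (g * h) k) :=
    Finset.prod_congr rfl fun k _ => ha.co g h k
  rw [Finset.prod_mul_distrib, Finset.prod_mul_distrib, Finset.prod_const, Finset.card_univ,
    hc] at h1
  have h2 : ∏ k, a g (h * k) = ∏ k, a g k :=
    Fintype.prod_equiv (Equiv.mulLeft h) _ _ fun k => rfl
  rw [h2] at h1
  simp only [map_prod, mul_one]
  rw [← h1]
  ring

end Pool.Agent.Helper7.KZ
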